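import Mathlib

set_option autoImplicit false

/-! Statements of project AO (MP_1e1427_nt): for almost all odd `n` there are many quadruples. -/

namespace Pool.Agent.N699.AO
open Finset

/-- `exp (2 π i x)` -/
noncomputable def ee (x : ℝ) : ℂ := Complex.exp (2 * Real.pi * x * Complex.I)

/-- the polynomial `20 c² + 2 c` at `c = 2 ^ k a` -/
def gz (k : ℕ) (a : ℤ) : ℤ := 20 * (2 ^ k * a) ^ 2 + 2 * (2 ^ k * a)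

/-- the natural numbers `a` with `20 M < 2 ^ k a ≤ 21 M` -/
def SA (k M : ℕ) : Finset ℕ := (range (21 * M + 1)).filter (fun a => 20 * M < 2 ^ k * a ∧ 2 ^ k * a ≤ 21 * M)

/-- the box of the triples `(a, s, t)` -/
def box (k M : ℕ) : Finset (ℕ × ℕ × ℕ) := SA k M ×ˢ (Ioc (20 * M) (30 * M) ×ˢ Ioc (5 * M) (40 * M))

/-- the value of a triple -/
def val (k : ℕ) (p : ℕ × ℕ × ℕ) : ℕ := 20 * (2 ^ k * p.1) ^ 2 + 2 * (2 ^ k * p.1) + p.2.1 ^ 2 + p.2.2 ^ 2 + p.2.2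

/-- the number of triples of the box with value `ν` -/
def rr (k M : ℕ) (ν : ℤ) : ℕ := ((box k M).filter (fun p => (val k p : ℤ) = ν)).card

/-- the exponential sums -/
noncomputable def EF (k M : ℕ) (α : ℝ) : ℂ := ∑ a ∈ SA k M, ee ((gz k a : ℝ) * α)
noncomputable def EW (ω A B : ℕ) (α : ℝ) : ℂ := ∑ s ∈ Ioc A B, ee (((s : ℝ) ^ 2 + ω * s) * α)
noncomputable def ES (M : ℕ) (α : ℝ) : ℂ := EW 0 (20 * M) (30 * M) α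
noncomputable def ET (M : ℕ) (α : ℝ) : ℂ := EW 1 (5 * M) (40 * M) α

/-- the number of pairs with congruent values -/
def NQ (k M Q : ℕ) : ℕ := ((SA k M ×ˢ SA k M).filter (fun p => (Q : ℤ) ∣ gz k p.1 - gz k p.2)).card

/-- `min (L, 1 / (2 ‖x‖))` -/
noncomputable def mm (L : ℕ) (x : ℝ) : ℝ := if |x - round x| * (2 * L) ≤ 1 then (L : ℝ) else 1 / (2 * |x - round x|)

/-- the number of local solutions -/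
def rho (D k : ℕ) [NeZero D] (ν : ZMod D) : ℕ :=
  (univ.filter (fun p : ZMod D × ZMod D × ZMod D =>
    20 * (2 ^ k * p.1) ^ 2 + 2 * (2 ^ k * p.1) + p.2.1 ^ 2 + p.2.2 ^ 2 + p.2.2 = ν)).card

/-- the number of local solutions with `2 t + 1 ≠ 0` -/
def rhoS (D k : ℕ) [NeZero D] (ν : ZMod D) : ℕ :=
  (univ.filter (fun p : ZMod D × ZMod D × ZMod D =>
    20 * (2 ^ k * p.1) ^ 2 + 2 * (2 ^ k * p.1) + p.2.1 ^ 2 + p.2.2 ^ 2 + p.2.2 = ν ∧ 2 * p.2.2 + 1 ≠ 0)).card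

/-- PARS: Parseval's formula for the differences -/
def PARS : Prop := ∀ k M : ℕ, ∀ h : ℤ, ∀ I : Finset ℤ,
  ((∑ ν ∈ I, ((rr k M ν : ℝ) - rr k M (ν + h)) ^ 2 : ℝ)) ≤
    ∫ α in (0 : ℝ)..1, ‖EF k M α * ES M α * ET M α‖ ^ 2 * ‖1 - ee ((h : ℝ) * α)‖ ^ 2

/-- WEY1: Weyl differencing -/
def WEY1 : Prop := ∀ L A B ω : ℕ, B ≤ L → ∀ α : ℝ,
  ‖EW ω A B α‖ ^ 2 ≤ L + 2 * ∑ u ∈ Icc 1 (2 * L), mm L (u * α)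

/-- WEY2: the sum of the `min (L, 1 / (2 ‖u α‖))` -/
def WEY2 : Prop := ∃ C : ℝ, 0 < C ∧ ∀ L Q : ℕ, 1 ≤ L → 1 ≤ Q → Q ≤ 8 * L →
  ∀ c : ℤ, IsCoprime c (Q : ℤ) → ∀ β : ℝ, |β| ≤ 1 / (Q * (8 * L)) →
    ∑ u ∈ Icc 1 (2 * L), mm L (u * (c / Q + β)) ≤
      C * ((L : ℝ) ^ 2 / Q * (1 + (L : ℝ) ^ 2 * |β|) ^ (-(3 / 4) : ℝ) + L * (1 + Real.log L))

/-- WEY: Weyl's bound with the decay in `β` -/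
def WEY : Prop := ∃ C : ℝ, 0 < C ∧ ∀ L A B Q ω : ℕ, 1 ≤ L → B ≤ L → 1 ≤ Q → Q ≤ 8 * L →
  ∀ c : ℤ, IsCoprime c (Q : ℤ) → ∀ β : ℝ, |β| ≤ 1 / (Q * (8 * L)) →
    ‖EW ω A B (c / Q + β)‖ ^ 2 ≤
      C * ((L : ℝ) ^ 2 / Q * (1 + (L : ℝ) ^ 2 * |β|) ^ (-(3 / 4) : ℝ) + L * (1 + Real.log L))

/-- FAV: the mean value over the fractions with denominator `Q` -/
def FAV : Prop := ∀ k M Q : ℕ, 1 ≤ Q → ∀ β : ℝ,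
  ∑ c ∈ range Q, ‖EF k M ((c : ℝ) / Q + β)‖ ^ 2 ≤ (Q : ℝ) * NQ k M Q

/-- FL2: the `L²` norm -/
def FL2 : Prop := ∀ k M : ℕ, ∫ α in (0 : ℝ)..1, ‖EF k M α‖ ^ 2 ≤ ((SA k M).card : ℝ)

/-- SERN1: the bound for `N_Q` -/
def SERN1 : Prop := ∀ k M Q : ℕ, 1 ≤ k → 1 ≤ Q → ∀ K : ℝ, (M : ℝ) / 2 ^ k + 1 ≤ K →
  (NQ k M Q : ℝ) ≤ ∑ p ∈ (ordCompl[2] Q).divisorsAntidiagonal, K * (K / (Nat.lcm p.1 p.2 : ℕ) + 1)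

/-- SERN2: the series -/
def SERN2 : Prop := ∃ C : ℝ, 0 < C ∧ ∀ Q0 R : ℕ, 1 ≤ Q0 → 1 ≤ R → ∀ K : ℝ, 1 ≤ K →
  ∑ Q ∈ Ioc Q0 R, (∑ p ∈ (ordCompl[2] Q).divisorsAntidiagonal, K * (K / (Nat.lcm p.1 p.2 : ℕ) + 1)) / (Q : ℝ) ≤
    C * (K ^ 2 / √(Q0 : ℝ) + K * (1 + Real.log R) ^ 2)

/-- DIRI: Dirichlet's theorem on `[0, 1]` -/
def DIRI : Prop := ∀ R : ℕ, 1 ≤ R → ∀ α : ℝ, 0 ≤ α → α ≤ 1 →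
  ∃ Q c : ℕ, 1 ≤ Q ∧ Q ≤ R ∧ c ≤ Q ∧ Nat.Coprime c Q ∧ |α - (c : ℝ) / Q| ≤ 1 / (Q * R)

/-- COV: integration over the arcs (pure measure theory) -/
def COV : Prop := ∀ (R : ℕ) (Φ E : ℝ → ℝ) (Ψ : ℕ → ℕ → ℝ → ℝ) (δ : ℕ → ℝ), Continuous Φ → Continuous E →
  (∀ Q c, Continuous (Ψ Q c)) → (∀ Q c β, 0 ≤ Ψ Q c β) → (∀ α, 0 ≤ E α) → (∀ Q, 0 ≤ δ Q) →
  (∀ α, 0 ≤ α → α ≤ 1 → ∃ Q ∈ Icc 1 R, ∃ c ∈ range (Q + 1), |α - (c : ℝ) / Q| ≤ δ Q ∧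
    Φ α ≤ Ψ Q c (α - (c : ℝ) / Q) + E α) →
  ∫ α in (0 : ℝ)..1, Φ α ≤ ∑ Q ∈ Icc 1 R, ∑ c ∈ range (Q + 1), (∫ β in (-δ Q)..(δ Q), Ψ Q c β) + ∫ α in (0 : ℝ)..1, E α

/-- INTG: an integral -/
def INTG : Prop := ∀ V δ : ℝ, 0 < V → 0 ≤ δ → ∫ β in (-δ)..δ, (1 + V * |β|) ^ (-(5 / 4) : ℝ) ≤ 8 / V

/-- FOUR: the Fourier bound; `L = 40 M` -/
def FOUR : Prop := ∃ C : ℝ, 0 < C ∧ ∀ k M Q0 : ℕ, 1 ≤ k → 1 ≤ Q0 → 2 ≤ M → Q0 ≤ M → ∀ h : ℤ, (∀ Q ∈ Icc 1 Q0, (Q : ℤ) ∣ h) →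
  ∀ I : Finset ℤ, ∀ K : ℝ, (M : ℝ) / 2 ^ k + 1 ≤ K →
  ∑ ν ∈ I, ((rr k M ν : ℝ) - rr k M (ν + h)) ^ 2 ≤
    C * M ^ 2 * (K ^ 2 * ((1 + Real.log Q0) * (|(h : ℝ)| / M ^ 2) ^ (1 / 4 : ℝ) + 1 / √(Q0 : ℝ)) + K * (1 + Real.log M) ^ 2)

/-- FOURA: the assembly of the Fourier bound -/
def FOURA : Prop := PARS → WEY → FAV → FL2 → SERN1 → SERN2 → DIRI → COV → INTG → FOUR

/-- the local statements -/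
def LIFT : Prop := ∀ p : ℕ, p.Prime → ∀ _ : NeZero p, ∀ e k : ℕ, ∀ _ : NeZero (p ^ (e + 1)), ∀ ν : ℤ,
  p ^ (2 * e) * rhoS p k (ν : ZMod p) ≤ rho (p ^ (e + 1)) k (ν : ZMod (p ^ (e + 1)))
def RS2 : Prop := ∀ k : ℕ, ∀ ν : ZMod 2, 4 ≤ rhoS 2 k ν
def RS3 : Prop := ∀ k : ℕ, ∀ ν : ZMod 3, 4 ≤ rhoS 3 k ν
def RSP : Prop := ∀ p : ℕ, p.Prime → 5 ≤ p → ∀ _ : NeZero p, ∀ k : ℕ, ∀ ν : ZMod p, p ^ 2 + 2 ≤ rhoS p k ν + 5 * p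
def RHOC : Prop := ∀ D E k : ℕ, ∀ _ : NeZero D, ∀ _ : NeZero E, ∀ _ : NeZero (D * E), Nat.Coprime D E → ∀ ν : ℤ,
  rho (D * E) k (ν : ZMod (D * E)) = rho D k (ν : ZMod D) * rho E k (ν : ZMod E)
def MERT : Prop := ∃ c : ℝ, 0 < c ∧ ∀ Q0 : ℕ, 2 ≤ Q0 →
  c / (Real.log Q0) ^ 5 ≤ ∏ p ∈ (Icc 5 Q0).filter Nat.Prime, (1 - 5 / (p : ℝ) + 2 / (p : ℝ) ^ 2)

/-- RHOF: the lower bound for `D = Q0!` -/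
def RHOF : Prop := ∃ c : ℝ, 0 < c ∧ ∀ Q0 k : ℕ, 2 ≤ Q0 → ∀ ν : ℤ, ∀ _ : NeZero Q0.factorial,
  c / (Real.log Q0) ^ 5 * (Q0.factorial : ℝ) ^ 2 ≤ rho Q0.factorial k (ν : ZMod Q0.factorial)
def RHOFA : Prop := LIFT → RS2 → RS3 → RSP → RHOC → MERT → RHOF

/-- CNT: the mean over a class is at least its local density -/
def CNT : Prop := ∀ D : ℕ, ∀ _ : NeZero D, ∃ M0 : ℕ, ∀ k M : ℕ, M0 ≤ M → 2 ^ k * M0 ≤ M → ∀ J : ℕ, 1000 * M ≤ J → J * D ≤ M ^ 2 →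
  ∀ ν : ℤ, 9800 * (M : ℤ) ^ 2 < ν → ν ≤ 9900 * (M : ℤ) ^ 2 →
  (1 / 2000 : ℝ) * (J * ((M : ℝ) / 2 ^ k)) * (rho D k (ν : ZMod D) / (D : ℝ) ^ 2) ≤
    ∑ j ∈ Icc (-(J : ℤ)) J, (rr k M (ν + j * D) : ℝ)

/-- SCA: the theorem for one scale -/
def SCA : Prop := ∀ ε : ℝ, 0 < ε → ∃ δ : ℝ, 0 < δ ∧ ∃ A : ℝ, 0 < A ∧ ∃ k0 M0 : ℕ, ∀ k M : ℕ, k0 ≤ k → M0 ≤ M →
  A * (2 : ℝ) ^ k * (Real.log M) ^ 2 ≤ M →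
  (((Ioc (9800 * (M : ℤ) ^ 2) (9900 * (M : ℤ) ^ 2)).filter (fun ν => (rr k M ν : ℝ) < δ * (M / 2 ^ k))).card : ℝ) ≤ ε * M ^ 2
def SCAA : Prop := FOUR → RHOF → CNT → SCA

/-- FACT: the prime factors -/
def FACT : Prop := ∀ k c q : ℕ, 1 ≤ c → 2 ^ k ∣ c → q.Prime → q ∣ 2 ^ (8 * c) + 2 ^ (4 * c + 1) + 1 → 2 ^ (k + 3) < q

/-- the quadruples of `n` for which all prime factors of `2^(x+y) + 2^(z+w) + 1` exceed `B` -/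
def quads (B : ℝ) (n : ℕ) : Set (ℕ × ℕ × ℕ × ℕ) :=
  {p | n = p.1 ^ 2 + p.2.1 ^ 2 + p.2.2.1 ^ 2 + p.2.2.2 ^ 2 ∧
    ∀ q : ℕ, q.Prime → q ∣ 2 ^ (p.1 + p.2.1) + 2 ^ (p.2.2.1 + p.2.2.2) + 1 → B < q}

/-- QUA: from triples to quadruples -/
def QUA : Prop := ∀ k M n : ℕ, ∀ B : ℝ, 1 ≤ M → B ≤ 2 ^ (k + 3) → ∀ ν : ℤ, (n : ℤ) = 2 * ν + 1 →
  rr k M ν ≤ (quads B n).ncard
def QUAA : Prop := FACT → QUA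

/-- FINI: all integers up to `X` -/
def FINI : Prop := ∀ ε : ℝ, 0 < ε → ∃ δ : ℝ, 0 < δ ∧ ∃ A : ℝ, 0 < A ∧ ∃ X0 : ℕ, ∀ X : ℕ, X0 ≤ X → ∀ B : ℝ, 1 ≤ B →
  A * B * (Real.log X) ^ 2 ≤ √(X : ℝ) →
  (((range (X + 1)).filter (fun n => Odd n ∧ ((quads B n).ncard : ℝ) < δ * (√(X : ℝ) / B))).card : ℝ) ≤ ε * X
def FINIA : Prop := SCA → QUA → FINI

end Pool.Agent.N699.AO
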