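import Pool.Agent.N699.AO.Stm

set_option autoImplicit false

/-! Project AO: small assemblies. -/

namespace Pool.Agent.N699.AO
open Finset

theorem WEYA (h1 : WEY1) (h2 : WEY2) : WEY := by
  obtain ⟨C, hC, h⟩ := h2
  refine ⟨2 * C + 1, by linarith, ?_⟩
  intro L A B Q ω hL hB hQ hQL c hc β hβ
  have h3 := h1 L A B ω hB (c / Q + β)
  have h4 := h L Q hL hQ hQL c hc β hβ
  have hL1 : (1 : ℝ) ≤ L := by exact_mod_cast hL
  have hlog : 0 ≤ Real.log L := Real.log_nonneg hL1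
  have hX : 0 ≤ (L : ℝ) ^ 2 / Q * (1 + (L : ℝ) ^ 2 * |β|) ^ (-(3 / 4) : ℝ) := by positivity
  have hY : (L : ℝ) ≤ L * (1 + Real.log L) := by nlinarith
  nlinarith

/-- the whole theorem from the leaves -/
theorem all_ (hPARS : PARS) (hWEY1 : WEY1) (hWEY2 : WEY2) (hFAV : FAV) (hFL2 : FL2) (hS1 : SERN1) (hS2 : SERN2)
    (hDIRI : DIRI) (hCOV : COV) (hINTG : INTG) (hFOURA : FOURA) (hLIFT : LIFT) (hRS2 : RS2) (hRS3 : RS3) (hRSP : RSP)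
    (hRHOC : RHOC) (hMERT : MERT) (hRHOFA : RHOFA) (hCNT : CNT) (hSCAA : SCAA) (hFACT : FACT) (hQUAA : QUAA)
    (hFINIA : FINIA) : FINI :=
  hFINIA (hSCAA (hFOURA hPARS (WEYA hWEY1 hWEY2) hFAV hFL2 hS1 hS2 hDIRI hCOV hINTG)
    (hRHOFA hLIFT hRS2 hRS3 hRSP hRHOC hMERT) hCNT) (hQUAA hFACT)

end Pool.Agent.N699.AO
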