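import Pool.Agent.N699.AO.Asm
import Pool.Agent.N227.AO_PARS
import Pool.Agent.N887.AO_WEY1
import Pool.Agent.N273.AO_WEY2
import Pool.Agent.N459.AO_FAV
import Pool.Agent.N618.AO_SERN1
import Pool.Agent.N921.AO_SERN2
import Pool.Agent.N56.AO_DIRI
import Pool.Agent.N223.AO_FOURA
import Pool.Agent.N339.AO_LIFT
import Pool.Agent.N291.AO_RS
import Pool.Agent.N432.AO_RHOC_MERT
import Pool.Agent.N378.AO_RHOFA
import Pool.Agent.N814.AO_CNT
import Pool.Agent.N562.AO_SCAA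
import Pool.Agent.N505.AO.FACT
import Pool.Agent.N698.AO_FINIA

set_option autoImplicit false

namespace Pool.Agent.N699.AO

theorem t_FINI : FINI :=
  all_ Pool.Agent.N227.AO.t_PARS Pool.Agent.N887.AO.t_WEY1 Pool.Agent.N273.AO.t_WEY2 Pool.Agent.N459.AO.t_FAV
    Pool.Agent.N459.AO.t_FL2 Pool.Agent.N618.AO.t_SERN1 Pool.Agent.N921.AO.t_SERN2 Pool.Agent.N56.AO.t_DIRI
    Pool.Agent.N56.AO.t_COV Pool.Agent.N56.AO.t_INTG Pool.Agent.N223.AO.t_FOURA Pool.Agent.N339.AO.t_LIFT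
    Pool.Agent.N291.AO.t_RS2 Pool.Agent.N291.AO.t_RS3 Pool.Agent.N291.AO.t_RSP Pool.Agent.N432.AO.t_RHOC
    Pool.Agent.N432.AO.t_MERT Pool.Agent.N378.AO.t_RHOFA Pool.Agent.N814.AO.t_CNT Pool.Agent.N562.AO.t_SCAA
    Pool.Agent.N505.AO.t_FACT Pool.Agent.N505.AO.t_QUAA Pool.Agent.N698.AO.t_FINIA

end Pool.Agent.N699.AO
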